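import Pool.Agent.H555LP.CutA
import Pool.Agent.H555LP.Inst

namespace Pool.Agent.Results.MP_f22ace_co.NotExpander

open H555LP Filter Topology

/-- Question Q1.  The graphs `Λ(2,k)`, `k ≥ 1`, are not an `h`-expander family, and for every
`d ≥ 2` the graphs `Λ(d,k)`, `k ≥ 1`, are not a `Φ`-expander family. -/
theorem result :
    -- the graphs are finite
    (∀ d k : ℕ, Finite (PolyIn (cube d k))) ∧
    -- `inf_k h(Λ(2,k)) = 0`, with explicit witnesses `S`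
    (∀ ε : ℝ, 0 < ε → ∀ K : ℕ, ∃ k : ℕ, K ≤ k ∧ hExp (Lam 2 k) < ε ∧
      ∃ S : Set (PolyIn (cube 2 k)), S.Nonempty ∧
        2 * S.ncard ≤ Nat.card (PolyIn (cube 2 k)) ∧
        (cut (Lam 2 k) S : ℝ) / (S.ncard : ℝ) < ε) ∧
    -- `Φ(Λ(d,k)) → 0` as `k → ∞`, with explicit witnesses `S`
    (∀ d : ℕ, 2 ≤ d → Tendsto (fun k => PhiExp (Lam d k)) atTop (𝓝 0)) ∧
    (∀ d : ℕ, 2 ≤ d → ∀ ε : ℝ, 0 < ε → ∃ K : ℕ, ∀ k : ℕ, K ≤ k →
      ∃ S : Set (PolyIn (cube d k)), S.Nonempty ∧ 0 < vol (Lam d k) S ∧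
        2 * vol (Lam d k) S ≤ vol (Lam d k) Set.univ ∧
        (cut (Lam d k) S : ℝ) / (vol (Lam d k) S : ℝ) ≤ ε) :=
  ⟨fun d k => (poly_finite d k).to_subtype, h_eps, fun _ hd => Phi_tendsto_k hd,
    fun _ hd ε hε => Phi_wit_k hd ε hε⟩

end Pool.Agent.Results.MP_f22ace_co.NotExpander
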