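import Pool.Agent.H555LP.Inst

namespace Pool.Agent.Results.MP_f22ace_co.PhiFixedSide

open H555LP Filter Topology

/-- Question Q2 (b).  For every `k ≥ 1` the graphs `Λ(d,k)`, `d ≥ 2`, are not a `Φ`-expander
family: their conductance tends to zero. -/
theorem result :
    -- the graphs are finite
    (∀ d k : ℕ, Finite (PolyIn (cube d k))) ∧
    -- `Φ(Λ(d,k)) → 0` as `d → ∞`, with explicit witnesses `S`
    (∀ k : ℕ, 1 ≤ k → Tendsto (fun d => PhiExp (Lam d k)) atTop (𝓝 0)) ∧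
    (∀ k : ℕ, 1 ≤ k → ∀ ε : ℝ, 0 < ε → ∃ D : ℕ, ∀ d : ℕ, D ≤ d →
      ∃ S : Set (PolyIn (cube d k)), S.Nonempty ∧ 0 < vol (Lam d k) S ∧
        2 * vol (Lam d k) S ≤ vol (Lam d k) Set.univ ∧
        (cut (Lam d k) S : ℝ) / (vol (Lam d k) S : ℝ) ≤ ε) :=
  ⟨fun d k => (poly_finite d k).to_subtype, fun k hk => Phi_tendsto_d k hk,
    fun k hk ε hε => Phi_wit_d k hk ε hε⟩

end Pool.Agent.Results.MP_f22ace_co.PhiFixedSide
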